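import Pool.Agent.H.MP_1d1d91_lc.D

set_option autoImplicit false

namespace Pool.Agent.Results.MP_1d1d91_lc.Poly
open Pool.Agent.Lib.CX Pool.Agent.H.MP_1d1d91_lc

theorem result : ∃ f : Gr → Bool, PT f ∧ ∀ g : Gr, (∀ n, 4 ≤ n → IsEmpty (SimpleGraph.cycleGraph n ↪g g.G)) →
    (SemiTrans g.G ↔ f g = true) :=
  ⟨_, pt_alg, fun g h => (st_iff h).trans (alg_iff g).symm⟩

end Pool.Agent.Results.MP_1d1d91_lc.Poly
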